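import Pool.Agent.J6H63.BC.D3b1

/-!
# Module D3a: not all colours are less than `n`
-/

set_option autoImplicit false

namespace Pool.Agent.J6H63.BC

open Pool.Agent.TH672 (Fm LogK ReplK Sw)
open Pool.Agent.TH636.BC (Fml blk inst lt col robinson TE)
open Pool.Agent.J6H49.BC
open Pool.Agent.J6H92.BC

theorem ren_ne {x y u : ℕ} (h : u ≠ x) : Pool.Agent.TH672.Form.ren x y u = u := by
  unfold Pool.Agent.TH672.Form.ren
  rw [if_neg h]

theorem ren_eq (x y : ℕ) : Pool.Agent.TH672.Form.ren x y x = y := by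
  unfold Pool.Agent.TH672.Form.ren
  rw [if_pos rfl]

theorem neqs_mem {n : ℕ} {g : Fml} (h : g ∈ neqs (DD n) 23) :
    ∃ i < n, g = Fm.neg (.eq 23 (dn i)) := by
  unfold neqs DD at h
  obtain ⟨d, hd, rfl⟩ := List.mem_map.1 h
  obtain ⟨i, hi, rfl⟩ := List.mem_map.1 hd
  exact ⟨i, List.mem_range.1 hi, rfl⟩

theorem mem_neqs {n i : ℕ} (h : i < n) : Fm.neg (.eq 23 (dn i)) ∈ neqs (DD n) 23 := by
  unfold neqs DD
  exact List.mem_map.2 ⟨dn i, List.mem_map.2 ⟨i, List.mem_range.2 h, rfl⟩, rfl⟩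

theorem neqs_len (n : ℕ) : (neqs (DD n) 23).length = n := by
  simp [neqs, DD]

theorem sz_neg (φ : Fml) : sz φ.neg = sz φ + 8 := by
  show sz (φ.imp .bot) = _
  rw [sz_imp, sz_bot]

theorem bb_neg {c : ℕ} {φ : Fml} (h : BB c φ) : BB c φ.neg := h.imp (bb_bot c)

theorem cs_neqs_le (n : ℕ) : cs (neqs (DD n) 23) ≤ 100 * (n + 1) ^ 2 := by
  have h := cs_le (Δ := neqs (DD n) 23) (s := 79 + 6 * n) fun g hg => by
    obtain ⟨i, hi, rfl⟩ := neqs_mem hg
    rw [sz_neg, sz_eq]; unfold dn; omega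
  rw [neqs_len] at h
  refine h.trans ?_
  nlinarith

theorem big_bound {C n : ℕ} (hC : 5000 ≤ C) :
    cs (chain n) + cs (neqs (DD n) 23) + 3000 + 300 * (n + 1) ≤ C * (n + 1) ^ 3 := by
  have h1 := cs_chain_le n
  have h1' := cs_neqs_le n
  have h3 : (n + 1) ^ 2 ≤ (n + 1) ^ 3 := Nat.pow_le_pow_right (by omega) (by omega)
  have h4 : n + 1 ≤ (n + 1) ^ 3 := by
    calc n + 1 = (n + 1) ^ 1 := (pow_one _).symm
      _ ≤ (n + 1) ^ 3 := Nat.pow_le_pow_right (by omega) (by omega)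
  have h5 : 1 ≤ (n + 1) ^ 3 := Nat.one_le_pow _ _ (by omega)
  have h7 : 5000 * (n + 1) ^ 3 ≤ C * (n + 1) ^ 3 := Nat.mul_le_mul_right _ hC
  refine le_trans ?_ h7
  obtain ⟨T, hT⟩ : ∃ T, (n + 1) ^ 3 = T := ⟨_, rfl⟩
  obtain ⟨T2, hT2⟩ : ∃ T, (n + 1) ^ 2 = T := ⟨_, rfl⟩
  rw [hT] at h3 h4 h5 ⊢
  rw [hT2] at h1 h1' h3
  linarith

theorem mem_WB5 : (.all 15 (.all 17 (.imp (.zero 15) (.neg (lt 17 15)))) : Fml) ∈ WB := by
  unfold WB U0
  simp

theorem mem_WB6 : (.all 15 (.all 17 (.all 19 (.imp (.succ 15 17) (.imp (lt 19 17)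
    (.or (lt 19 15) (.eq 19 15)))))) : Fml) ∈ WB := by
  unfold WB U0
  simp

theorem mem_WB1 : Kf [] ∈ WB := by
  have : Kf [] = .all 15 (.ex 17 (hi 15 17)) := rfl
  rw [this]
  unfold WB U0
  simp

theorem d3a : D3aT := by
  refine ⟨5000, fun C hC n G hG => ?_⟩
  set s := C * (n + 1) ^ 3 with hs
  set l := C * (n + 1) with hl
  have hS : cs (chain n) + cs (neqs (DD n) 23) + 3000 + 300 * (n + 1) ≤ s := big_bound hC
  have hN : 100 * (n + 1) ≤ s := by omega
  have hll : 2 * n + 20 ≤ l := by rw [hl]; nlinarith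
  have hdn : dn n = 42 + 6 * n := rfl
  clear_value s l
  clear hs hl
  have dlt : ∀ {i}, i ≤ n → dn i ≤ 42 + 6 * n := fun {i} hi => by unfold dn; omega
  have dge : ∀ i, 42 ≤ dn i := fun i => by unfold dn; omega
  have h1000 : 1000 ≤ s := by linarith
  have wch : ∀ g ∈ chain n, W 9 s g := fun g hg =>
    ⟨chain_bb hg, (chain_sz hg).trans (by omega)⟩
  have wnq : ∀ g ∈ neqs (DD n) 23, W 9 s g := fun g hg => by
    obtain ⟨i, hi, rfl⟩ := neqs_mem hg
    have := dlt hi.le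
    exact ⟨bb_neg (bb_eq _ _ _), by rw [sz_neg, sz_eq]; omega⟩
  have wWn : W 9 s (Wn (dn n)) := ⟨(bb_Wn _).mono (by omega), by rw [sz_Wn]; omega⟩
  have wcol : W 9 s (col 17 19 23) := ⟨bb_op _ _ _ _ _ _, by simp only [col, sz_op]; omega⟩
  -- contexts
  have w0 : ∀ g ∈ (chain n ++ [Wn (dn n)] : List Fml), W 9 s g := by
    intro g hg
    rcases List.mem_append.1 hg with hg | hg
    · exact wch g hg
    · rw [List.mem_singleton] at hg; rw [hg]; exact wWn
  have w1 : ∀ g ∈ (chain n ++ [Wn (dn n)] ++ [col 17 19 23] : List Fml), W 9 s g := by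
    intro g hg
    rcases List.mem_append.1 hg with hg | hg
    · exact w0 g hg
    · rw [List.mem_singleton] at hg; rw [hg]; exact wcol
  have w2 : ∀ g ∈ (chain n ++ [Wn (dn n)] ++ [col 17 19 23] ++ neqs (DD n) 23 : List Fml),
      W 9 s g := by
    intro g hg
    rcases List.mem_append.1 hg with hg | hg
    · exact w1 g hg
    · exact wnq g hg
  have len0 : (chain n ++ [Wn (dn n)] : List Fml).length ≤ l := by
    simp only [List.length_append, chain_len, List.length_cons, List.length_nil]; omega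
  have len2 : (chain n ++ [Wn (dn n)] ++ [col 17 19 23] ++ neqs (DD n) 23 : List Fml).length + 1 ≤
      l := by
    simp only [List.length_append, chain_len, neqs_len, List.length_cons, List.length_nil]; omega
  obtain ⟨Δ, hΔ⟩ : ∃ Δ : List Fml,
    (chain n ++ [Wn (dn n)] ++ [col 17 19 23] ++ neqs (DD n) 23 : List Fml) = Δ := ⟨_, rfl⟩
  have m0 : Wn (dn n) ∈ Δ := by rw [← hΔ]; simp
  have m1 : col 17 19 23 ∈ Δ := by rw [← hΔ]; simp
  have m2 : ∀ i < n, Fm.neg (.eq 23 (dn i)) ∈ Δ := fun i hi => by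
    rw [← hΔ]; exact List.mem_append_right _ (mem_neqs hi)
  have m3 : ∀ g ∈ chain n, g ∈ Δ := fun g hg => by
    rw [← hΔ]; simp only [List.mem_append]; tauto
  rw [hΔ] at w2 len2
  have hyp : ∀ g ∈ Δ, ND WB 9 s l G 1 Δ g := fun g hg => .hyp (by omega) w2 hg
  -- the upper bound for the colour
  have v0 : ND WB 9 s l G 1 Δ (.all 33 (.all 35 (.all 37 (.imp (col 33 35 37) (lt 37 (dn n)))))) :=
    hyp _ m0
  have hn33 : dn n ≠ 33 := by omega
  have hn35 : dn n ≠ 35 := by omega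
  have hn37 : dn n ≠ 37 := by omega
  have e1 : (Fm.all 35 (.all 37 (.imp (col 33 35 37) (lt 37 (dn n)))) : Fml).subst 33 17 =
      .all 35 (.all 37 (.imp (col 17 35 37) (lt 37 (dn n)))) := by
    simp [Fm.subst, col, lt, Pool.Agent.TH672.Form.ren, hn33]
  have e2 : (Fm.all 37 (.imp (col 17 35 37) (lt 37 (dn n))) : Fml).subst 35 19 =
      .all 37 (.imp (col 17 19 37) (lt 37 (dn n))) := by
    simp [Fm.subst, col, lt, Pool.Agent.TH672.Form.ren, hn35]
  have e3 : (Fm.imp (col 17 19 37) (lt 37 (dn n)) : Fml).subst 37 23 =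
      .imp (col 17 19 23) (lt 23 (dn n)) := by
    simp [Fm.subst, col, lt, Pool.Agent.TH672.Form.ren, hn37]
  have bcl : ∀ a b c : ℕ, BB 0 (.imp (col a b c) (lt c (dn n))) := fun a b c =>
    (bb_op _ _ _ _ _ _).imp (bb_op _ _ _ _ _ _)
  have wv1 : W 9 s (.all 35 (.all 37 (.imp (col 17 35 37) (lt 37 (dn n))))) :=
    ⟨(((bcl _ _ _).all 37).all 35).mono (by omega), by
      simp only [col, lt, sz_all, sz_imp, sz_op]; omega⟩
  have wv2 : W 9 s (.all 37 (.imp (col 17 19 37) (lt 37 (dn n)))) :=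
    ⟨((bcl _ _ _).all 37).mono (by omega), by
      simp only [col, lt, sz_all, sz_imp, sz_op]; omega⟩
  have wv3 : W 9 s (.imp (col 17 19 23) (lt 23 (dn n))) :=
    ⟨(bcl _ _ _).mono (by omega), by
      simp only [col, lt, sz_imp, sz_op]; omega⟩
  have v1 : ND WB 9 s l G 2 Δ (.all 35 (.all 37 (.imp (col 17 35 37) (lt 37 (dn n))))) := by
    have := v0.allE 17 (by simp [Fm.FreeFor, col, lt]) (by rw [e1]; exact wv1)
    rwa [e1] at this
  have v2 : ND WB 9 s l G 3 Δ (.all 37 (.imp (col 17 19 37) (lt 37 (dn n)))) := by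
    have := v1.allE 19 (by simp [Fm.FreeFor, col, lt]) (by rw [e2]; exact wv2)
    rwa [e2] at this
  have v3 : ND WB 9 s l G 4 Δ (.imp (col 17 19 23) (lt 23 (dn n))) := by
    have := v2.allE 23 (by simp [Fm.FreeFor, col, lt]) (by rw [e3]; exact wv3)
    rwa [e3] at this
  have v4 : ND WB 9 s l G 6 Δ (lt 23 (dn n)) := (v3.mp (hyp _ m1)).up (by omega)
  -- one step
  have step : ∀ j < n, ∀ N, ND WB 9 s l G N Δ (lt 23 (dn (j + 1))) →
      ND WB 9 s l G (N + 20) Δ (lt 23 (dn j)) := by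
    intro j hj N h
    have dj := dlt hj.le
    have dj1 := dlt (show j + 1 ≤ n by omega)
    have gj := dge j
    have gj1 := dge (j + 1)
    have bi : ∀ a b c : ℕ, BB 0 (.imp (.succ a b) (.imp (lt c b) (.or (lt c a) (.eq c a)))) :=
      fun a b c => (bb_succ _ _ _).imp ((bb_op _ _ _ _ _ _).imp
          ((bb_neg (bb_op _ _ _ _ _ _)).imp (bb_eq _ _ _)))
    have t0 : ND WB 9 s l G 1 Δ (.all 15 (.all 17 (.all 19 (.imp (.succ 15 17) (.imp (lt 19 17)
        (.or (lt 19 15) (.eq 19 15))))))) := by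
      have hb6 : BB 6 (.all 15 (.all 17 (.all 19 (.imp (.succ 15 17) (.imp (lt 19 17)
        (.or (lt 19 15) (.eq 19 15))))))) := (((bi 15 17 19).all 19).all 17).all 15
      have hb9 := hb6.mono (show 6 ≤ 9 by omega)
      have hsz : sz (.all 15 (.all 17 (.all 19 (.imp (.succ 15 17) (.imp (lt 19 17)
        (.or (lt 19 15) (.eq 19 15))))))) ≤ 1000 := by
        simp only [Fm.or, Fm.neg, lt, sz_all, sz_imp, sz_op, sz_eq, sz_succ, sz_bot]
        norm_num
      exact .thm (Nat.le_of_succ_le len2) w2 ⟨hb9, hsz.trans h1000⟩ (.inr (.inl mem_WB6))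
    have f1 : (Fm.all 17 (.all 19 (.imp (.succ 15 17) (.imp (lt 19 17)
        (.or (lt 19 15) (.eq 19 15))))) : Fml).subst 15 (dn j) =
        .all 17 (.all 19 (.imp (.succ (dn j) 17) (.imp (lt 19 17)
        (.or (lt 19 (dn j)) (.eq 19 (dn j)))))) := by
      simp [Fm.subst, lt, Fm.or, Fm.neg, Pool.Agent.TH672.Form.ren]
    have f2 : (Fm.all 19 (.imp (.succ (dn j) 17) (.imp (lt 19 17)
        (.or (lt 19 (dn j)) (.eq 19 (dn j))))) : Fml).subst 17 (dn (j + 1)) =
        .all 19 (.imp (.succ (dn j) (dn (j + 1))) (.imp (lt 19 (dn (j + 1)))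
        (.or (lt 19 (dn j)) (.eq 19 (dn j))))) := by
      have : dn j ≠ 17 := by omega
      simp [Fm.subst, lt, Fm.or, Fm.neg, Pool.Agent.TH672.Form.ren, this]
    have f3 : (Fm.imp (.succ (dn j) (dn (j + 1))) (.imp (lt 19 (dn (j + 1)))
        (.or (lt 19 (dn j)) (.eq 19 (dn j)))) : Fml).subst 19 23 =
        .imp (.succ (dn j) (dn (j + 1))) (.imp (lt 23 (dn (j + 1)))
        (.or (lt 23 (dn j)) (.eq 23 (dn j)))) := by
      have h1 : dn j ≠ 19 := by omega
      have h2 : dn (j + 1) ≠ 19 := by omega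
      simp [Fm.subst, lt, Fm.or, Fm.neg, Pool.Agent.TH672.Form.ren, h1, h2]
    have t1 : ND WB 9 s l G 2 Δ (.all 17 (.all 19 (.imp (.succ (dn j) 17) (.imp (lt 19 17)
        (.or (lt 19 (dn j)) (.eq 19 (dn j))))))) := by
      have := t0.allE (dn j) (by
        have h1 : dn j ≠ 17 := by omega
        have h2 : dn j ≠ 19 := by omega
        simp [Fm.FreeFor, lt, Fm.or, Fm.neg, h1.symm, h2.symm]) (by
        rw [f1]
        exact ⟨(((bi _ _ _).all 19).all 17).mono (by omega), by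
          simp only [Fm.or, Fm.neg, lt, sz_all, sz_imp, sz_op, sz_eq, sz_succ, sz_bot]; omega⟩)
      rwa [f1] at this
    have t2 : ND WB 9 s l G 3 Δ (.all 19 (.imp (.succ (dn j) (dn (j + 1)))
        (.imp (lt 19 (dn (j + 1))) (.or (lt 19 (dn j)) (.eq 19 (dn j)))))) := by
      have := t1.allE (dn (j + 1)) (by
        have h2 : dn (j + 1) ≠ 19 := by omega
        simp [Fm.FreeFor, lt, Fm.or, Fm.neg, h2.symm]) (by
        rw [f2]
        exact ⟨((bi _ _ _).all 19).mono (by omega), by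
          simp only [Fm.or, Fm.neg, lt, sz_all, sz_imp, sz_op, sz_eq, sz_succ, sz_bot]; omega⟩)
      rwa [f2] at this
    have t3 : ND WB 9 s l G 4 Δ (.imp (.succ (dn j) (dn (j + 1)))
        (.imp (lt 23 (dn (j + 1))) (.or (lt 23 (dn j)) (.eq 23 (dn j))))) := by
      have := t2.allE 23 (by simp [Fm.FreeFor, lt, Fm.or, Fm.neg]) (by
        rw [f3]
        exact ⟨(bi _ _ _).mono (by omega), by
          simp only [Fm.or, Fm.neg, lt, sz_imp, sz_op, sz_eq, sz_succ, sz_bot]; omega⟩)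
      rwa [f3] at this
    have hsm : Fm.succ (dn j) (dn (j + 1)) ∈ chain n := by
      unfold chain
      exact List.mem_cons_of_mem _ (List.mem_map.2 ⟨j, List.mem_range.2 hj, rfl⟩)
    have t4 := (t3.mp (hyp _ (m3 _ hsm))).mp h
    have t5 : ND WB 9 s l G (4 + 1 + 1 + N + 1) Δ
        (.imp (Fm.neg (lt 23 (dn j))) (.eq 23 (dn j))) := t4
    have wn : W 9 s (Fm.neg (lt 23 (dn j))) :=
      ⟨bb_neg (bb_op _ _ _ _ _ _), by simp only [Fm.neg, lt, sz_imp, sz_op, sz_bot]; omega⟩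
    have w3 : ∀ g ∈ Δ ++ [Fm.neg (lt 23 (dn j))], W 9 s g := by
      intro g hg
      rcases List.mem_append.1 hg with hg | hg
      · exact w2 g hg
      · rw [List.mem_singleton] at hg; rw [hg]; exact wn
    have len3 : (Δ ++ [Fm.neg (lt 23 (dn j))]).length ≤ l := by
      rw [List.length_append, List.length_singleton]; exact len2
    have t6 := t5.sub (Δ' := Δ ++ [Fm.neg (lt 23 (dn j))])
      (fun g hg => List.mem_append_left _ hg) len3 w3
    have t7 : ND WB 9 s l G 1 (Δ ++ [Fm.neg (lt 23 (dn j))]) (Fm.neg (lt 23 (dn j))) :=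
      .hyp len3 w3 (by simp)
    have t8 : ND WB 9 s l G 1 (Δ ++ [Fm.neg (lt 23 (dn j))]) (Fm.imp (.eq 23 (dn j)) .bot) :=
      .hyp len3 w3 (List.mem_append_left _ (m2 j hj))
    have t9 := t8.mp (t6.mp t7)
    have t10 : ND WB 9 s l G _ Δ (Fm.neg (Fm.neg (lt 23 (dn j)))) := t9.impI
      ⟨bb_neg (bb_neg (bb_op _ _ _ _ _ _)), by
        simp only [Fm.neg, lt, sz_imp, sz_op, sz_bot]; omega⟩
    exact t10.dn.up (by omega)
  have all : ∀ i ≤ n, ND WB 9 s l G (6 + 20 * i) Δ (lt 23 (dn (n - i))) := by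
    intro i
    induction i with
    | zero => intro _; exact v4
    | succ i ih =>
      intro hi
      have h := ih (by omega)
      rw [show n - i = (n - (i + 1)) + 1 by omega] at h
      exact (step (n - (i + 1)) (by omega) _ h).up (by omega)
  have low := all n le_rfl
  rw [Nat.sub_self] at low
  -- nothing is less than zero
  have z0 : ND WB 9 s l G 1 Δ (.all 15 (.all 17 (.imp (.zero 15) (.neg (lt 17 15))))) := by
    refine .thm (by omega) w2 ⟨?_, ?_⟩ (.inr (.inl mem_WB5))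
    · exact BB.mono (c := 4) (BB.all (BB.all (c := 0) ((bb_zero _ _).imp
        (bb_neg (bb_op _ _ _ _ _ _))) 17) 15) (by omega)
    · simp only [Fm.neg, lt, sz_all, sz_imp, sz_op, sz_zero, sz_bot]; omega
  have g0 := dge 0
  have hd0 : dn 0 = 42 := rfl
  have z1 : ND WB 9 s l G 2 Δ (.all 17 (.imp (.zero (dn 0)) (.neg (lt 17 (dn 0))))) := by
    have e : (Fm.all 17 (.imp (.zero 15) (.neg (lt 17 15))) : Fml).subst 15 (dn 0) =
        .all 17 (.imp (.zero (dn 0)) (.neg (lt 17 (dn 0)))) := by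
      simp [Fm.subst, lt, Fm.neg, Pool.Agent.TH672.Form.ren]
    have := z0.allE (dn 0) (by simp [Fm.FreeFor, lt, Fm.neg, hd0]) (by
      rw [e]
      exact ⟨BB.mono (c := 2) (BB.all (c := 0) ((bb_zero _ _).imp
        (bb_neg (bb_op _ _ _ _ _ _))) 17) (by omega), by
          simp only [Fm.neg, lt, sz_all, sz_imp, sz_op, sz_zero, sz_bot]; omega⟩)
    rwa [e] at this
  have z2 : ND WB 9 s l G 3 Δ (.imp (.zero (dn 0)) (.neg (lt 23 (dn 0)))) := by
    have e : (Fm.imp (.zero (dn 0)) (.neg (lt 17 (dn 0))) : Fml).subst 17 23 =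
        .imp (.zero (dn 0)) (.neg (lt 23 (dn 0))) := by
      have h1 : dn 0 ≠ 17 := by omega
      simp [Fm.subst, lt, Fm.neg, Pool.Agent.TH672.Form.ren, h1]
    have := z1.allE 23 (by simp [Fm.FreeFor, lt, Fm.neg]) (by
      rw [e]
      exact ⟨BB.mono (c := 0) ((bb_zero _ _).imp
        (bb_neg (bb_op _ _ _ _ _ _))) (by omega), by
          simp only [Fm.neg, lt, sz_imp, sz_op, sz_zero, sz_bot]; omega⟩)
    rwa [e] at this
  have hzm : Fm.zero (dn 0) ∈ chain n := List.mem_cons_self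
  have z3 : ND WB 9 s l G (3 + 1 + 1) Δ (.imp (lt 23 (dn 0)) .bot) := z2.mp (hyp _ (m3 _ hzm))
  have z4 := z3.mp low
  rw [← hΔ] at z4
  -- the hypothesis
  have wH4 : W 9 s (imps (neqs (DD n) 23) .bot) :=
    ⟨BB.imps (fun g hg => (wnq g hg).bb) (bb_bot _), by
      rw [sz_imps, sz_bot]; omega⟩
  have x0 := ND_impIs z4 wH4
  have b3 : BB 0 (Fm.imp (col 17 19 23) (imps (neqs (DD n) 23) .bot)) :=
    (bb_op _ _ _ _ _ _).imp (BB.imps (fun g hg => by
      obtain ⟨i, _, rfl⟩ := neqs_mem hg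
      exact bb_neg (bb_eq _ _ _)) (bb_bot _))
  have wH3 : W 9 s (Fm.imp (col 17 19 23) (imps (neqs (DD n) 23) .bot)) :=
    ⟨b3.mono (by omega), by
      simp only [col, sz_imp, sz_imps, sz_op, sz_bot]; omega⟩
  have x1 := ND.impI x0 wH3
  have hfree : ∀ x, x < 40 → ∀ g ∈ (chain n ++ [Wn (dn n)] : List Fml), ¬ g.Free x ∨ 30 ≤ x := by
    intro x h2 g hg
    by_cases hx : 30 ≤ x
    · exact .inr hx
    refine .inl fun h => ?_
    rcases List.mem_append.1 hg with hg | hg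
    · have := chain_free hg h; omega
    · rw [List.mem_singleton] at hg
      rw [hg] at h
      simp only [Wn, col, lt, Fm.Free] at h; omega
  have hf : ∀ x < 30, ∀ g ∈ (chain n ++ [Wn (dn n)] : List Fml), ¬ g.Free x :=
    fun x hx g hg => (hfree x (by omega) g hg).resolve_right (by omega)
  have wH2 : W 9 s (.all 23 (Fm.imp (col 17 19 23) (imps (neqs (DD n) 23) .bot))) :=
    ⟨(b3.all 23).mono (by omega), by
      simp only [col, sz_all, sz_imp, sz_imps, sz_op, sz_bot]; omega⟩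
  have wH1 : W 9 s (.all 19 (.all 23 (Fm.imp (col 17 19 23) (imps (neqs (DD n) 23) .bot)))) :=
    ⟨((b3.all 23).all 19).mono (by omega), by
      simp only [col, sz_all, sz_imp, sz_imps, sz_op, sz_bot]; omega⟩
  have wH0 : W 9 s (.all 17 (.all 19 (.all 23
      (Fm.imp (col 17 19 23) (imps (neqs (DD n) 23) .bot))))) :=
    ⟨(((b3.all 23).all 19).all 17).mono (by omega), by
      simp only [col, sz_all, sz_imp, sz_imps, sz_op, sz_bot]; omega⟩
  have x2 := x1.allI (x := 23) (hf 23 (by omega)) wH2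
  have x3 := x2.allI (x := 19) (hf 19 (by omega)) wH1
  have x4 := x3.allI (x := 17) (hf 17 (by omega)) wH0
  have x5 : ND WB 9 s l G _ (chain n ++ [Wn (dn n)]) (Hyp [] (DD n)) := x4
  have wK : W 9 s (Kf []) := by
    have : Kf [] = .all 15 (.neg (.all 17 (.imp (hi 15 17) .bot))) := rfl
    rw [this]
    exact ⟨BB.mono (c := 4) (BB.all (c := 2) (bb_neg (BB.all (c := 0)
      ((bb_op _ _ _ _ _ _).imp (bb_bot _)) 17)) 15) (by omega), by
        simp only [Fm.neg, hi, sz_all, sz_imp, sz_op, sz_bot]; omega⟩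
  have sK : sz (Kf []) ≤ 200 := by
    have : Kf [] = .all 15 (.neg (.all 17 (.imp (hi 15 17) .bot))) := rfl
    rw [this]
    simp only [Fm.neg, hi, sz_all, sz_imp, sz_op, sz_bot]; omega
  have sH : sz (Hyp [] (DD n)) ≤ cs (neqs (DD n) 23) + 200 := by
    show sz (.all 17 (.all 19 (.all 23
      (Fm.imp (col 17 19 23) (imps (neqs (DD n) 23) .bot))))) ≤ _
    simp only [col, sz_all, sz_imp, sz_imps, sz_op, sz_bot]; omega
  have wF : W 9 s (FF [] (DD n)) := by
    refine ⟨wH0.bb.imp (wK.bb.imp (bb_bot _)), ?_⟩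
    show sz ((Hyp [] (DD n)).imp ((Kf []).imp .bot)) ≤ s
    rw [sz_imp, sz_imp, sz_bot]; omega
  have y0 : ND WB 9 s l G 1 (chain n ++ [Wn (dn n)])
      ((Hyp [] (DD n)).imp ((Kf []).imp .bot)) := .thm len0 w0 wF (.inl hG)
  have y1 : ND WB 9 s l G 1 (chain n ++ [Wn (dn n)]) (Kf []) :=
    .thm len0 w0 wK (.inr (.inl mem_WB1))
  have y2 := (y0.mp x5).mp y1
  have wJ : W 9 s (imps (chain n ++ [Wn (dn n)]) .bot) :=
    ⟨BB.imps (fun g hg => (w0 g hg).bb) (bb_bot _), by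
      simp only [sz_imps, cs_append, cs_cons, cs_nil, sz_Wn, sz_bot]; omega⟩
  have J := ND_impIs (Δ := []) (L := chain n ++ [Wn (dn n)]) y2 wJ
  refine J.up ?_
  simp only [List.length_append, chain_len, neqs_len, List.length_cons, List.length_nil]
  omega

end Pool.Agent.J6H63.BC
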