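import Pool.Agent.J6H63.BC.ChainL

/-!
# Module D3b, second part: one block more
-/

set_option autoImplicit false

namespace Pool.Agent.J6H63.BC

open Pool.Agent.TH672 (Fm LogK ReplK Sw)
open Pool.Agent.TH636.BC (Fml blk inst lt col)
open Pool.Agent.J6H49.BC
open Pool.Agent.J6H92.BC
open Pool.Agent.J6H77.BC (Rr_zero Rr_succ bb_Rr bb_Rr' cx_Rr sz_Rr_le free_Rr le_cube lin_le_cube)

theorem d3b2 : D3b2T := by
  intro Y c hY hc hb
  refine ⟨sz Y + 1000, fun C hC n i j hij G hG => ?_⟩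
  set s := C * (n + 1) ^ 3 with hs
  set l := C * (n + 1) with hl
  have hS : cs (chain j) + (sz Y + 500) + 300 * (n + 1) ≤ s := size_bound (by omega) (by omega)
  have hN : 100 * (n + 1) ≤ s := by omega
  have hll : n + 20 ≤ l := by rw [hl]; nlinarith
  have hR := sz_Rr_le Y i
  have hR' := sz_Rr_le Y (i + 1)
  have bR : BB (c + 4) (Rr Y i) := (bb_Rr hb i).mono (by omega)
  have bR' : BB (c + 4) (.all 0 (.imp (.eq 0 1) (Rr Y i))) := (bb_Rr' hb i).mono (by omega)
  have bR1 : BB (c + 4) (Rr Y (i + 1)) := (bb_Rr hb (i + 1)).mono (by omega)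
  have hdj : dn j = 42 + 6 * j := rfl
  have wch : ∀ g ∈ chain j, W (c + 4) s g := fun g hg =>
    ⟨chain_bb hg, (chain_sz hg).trans (by omega)⟩
  have wS : W (c + 4) s (Fm.succ (dn j) 1) := ⟨bb_succ _ _ _, by rw [sz_succ]; omega⟩
  have wS0 : W (c + 4) s (Fm.succ 0 1) := ⟨bb_succ _ _ _, by rw [sz_succ]; omega⟩
  have wE : W (c + 4) s (Fm.eq 0 1) := ⟨bb_eq _ _ _, by rw [sz_eq]; omega⟩
  have wE0 : W (c + 4) s (Fm.eq 0 (dn j)) := ⟨bb_eq _ _ _, by rw [sz_eq]; omega⟩
  have ca : ∀ {L : List Fml}, (∀ g ∈ L, W (c + 4) s g) → ∀ g ∈ chain j ++ L, W (c + 4) s g := by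
    intro L hL g hg
    rcases List.mem_append.1 hg with hg | hg
    · exact wch g hg
    · exact hL g hg
  have bch : ∀ {L : List Fml}, (∀ g ∈ L, W (c + 4) s g) → ∀ g ∈ chain j ++ L, BB (c + 4) g :=
    fun hL g hg => (ca hL g hg).bb
  -- A: the available formula
  have w1 : ∀ g ∈ ([.succ (dn j) 1, .eq 0 1] : List Fml), W (c + 4) s g := by
    intro g hg
    simp only [List.mem_cons, List.not_mem_nil, or_false] at hg
    rcases hg with rfl | rfl
    · exact wS
    · exact wE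
  have wG : W (c + 4) s (imps (chain j ++ [.succ (dn j) 1, .eq 0 1]) (Rr Y i)) :=
    ⟨BB.imps (bch w1) bR, by
      simp only [sz_imps, cs_append, cs_cons, cs_nil, sz_succ, sz_eq]; omega⟩
  have hlen1 : (chain j ++ [Fm.succ (dn j) 1, Fm.eq 0 1] : List Fml).length ≤ l := by
    simp only [List.length_append, chain_len, List.length_cons, List.length_nil]; omega
  have A : ND WB (c + 4) s l G 1 (chain j ++ [.succ (dn j) 1, .eq 0 1])
      (imps (chain j ++ [.succ (dn j) 1, .eq 0 1]) (Rr Y i)) :=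
    .thm hlen1 (ca w1) wG (.inl hG)
  have A' := ND_mps (M := 1) A fun g hg => ND_ctx A hg
  -- B, C
  have wB : W (c + 4) s (.imp (.eq 0 1) (Rr Y i)) :=
    ⟨(bb_eq _ _ _).imp bR, by simp only [sz_imp, sz_eq]; omega⟩
  have wC : W (c + 4) s (.all 0 (.imp (.eq 0 1) (Rr Y i))) :=
    ⟨bR', by simp only [sz_all, sz_imp, sz_eq]; omega⟩
  have e1 : (chain j ++ [Fm.succ (dn j) 1, Fm.eq 0 1] : List Fml) =
      (chain j ++ [Fm.succ (dn j) 1]) ++ [Fm.eq 0 1] := by simp
  rw [e1] at A'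
  have B := ND.impI A' wB
  have Cc := B.allI (x := 0) (fun g hg h => by
    rcases List.mem_append.1 hg with hg | hg
    · have := chain_free hg h; omega
    · rw [List.mem_singleton] at hg
      rw [hg] at h
      simp only [Fm.Free] at h
      omega) wC
  -- D
  have w2 : ∀ g ∈ ([.succ (dn j) 1] : List Fml), W (c + 4) s g := by
    intro g hg
    rw [List.mem_singleton] at hg
    rw [hg]; exact wS
  have wD : W (c + 4) s (imps (chain j ++ [.succ (dn j) 1]) (.all 0 (.imp (.eq 0 1) (Rr Y i)))) :=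
    ⟨BB.imps (bch w2) bR', by
      simp only [sz_imps, cs_append, cs_cons, cs_nil, sz_succ, sz_all, sz_imp, sz_eq]; omega⟩
  have D := ND_impIs (Δ := []) (L := chain j ++ [.succ (dn j) 1]) Cc wD
  -- E
  have w3 : ∀ g ∈ ([.eq 0 (dn j), .succ 0 1] : List Fml), W (c + 4) s g := by
    intro g hg
    simp only [List.mem_cons, List.not_mem_nil, or_false] at hg
    rcases hg with rfl | rfl
    · exact wE0
    · exact wS0
  have hlen3 : (chain j ++ [Fm.eq 0 (dn j), Fm.succ 0 1] : List Fml).length ≤ l := by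
    simp only [List.length_append, chain_len, List.length_cons, List.length_nil]; omega
  have E := D.sub (Δ' := chain j ++ [.eq 0 (dn j), .succ 0 1])
    (fun _ h => absurd h List.not_mem_nil) hlen3 (ca w3)
  -- F
  have F0 : ND WB (c + 4) s l G 1 (chain j ++ [.eq 0 (dn j), .succ 0 1])
      (.imp (.eq 0 (dn j)) (.imp (.succ 0 1) (.succ (dn j) 1))) :=
    .thm hlen3 (ca w3) ⟨(bb_eq _ _ _).imp ((bb_succ _ _ _).imp (bb_succ _ _ _)), by
      simp only [sz_imp, sz_eq, sz_succ]; omega⟩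
      (.inr (.inr (.repl 0 (dn j) _ _ (.succ (.inr ⟨rfl, rfl⟩) (.inl rfl)))))
  have F1 := (F0.mp (ND_ctx F0 (ψ := .eq 0 (dn j)) (by simp))).mp
    (ND_ctx F0 (ψ := .succ 0 1) (by simp))
  have F := ND_mps (M := 5) E fun g hg => by
    rcases List.mem_append.1 hg with hg | hg
    · exact (ND_ctx F0 (List.mem_append_left _ hg)).up (by omega)
    · rw [List.mem_singleton] at hg
      rw [hg]; exact F1
  -- H, I
  have wH : W (c + 4) s (.imp (.succ 0 1) (.all 0 (.imp (.eq 0 1) (Rr Y i)))) :=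
    ⟨(bb_succ _ _ _).imp bR', by simp only [sz_imp, sz_succ, sz_all, sz_eq]; omega⟩
  have e3 : (chain j ++ [Fm.eq 0 (dn j), Fm.succ 0 1] : List Fml) =
      (chain j ++ [Fm.eq 0 (dn j)]) ++ [Fm.succ 0 1] := by simp
  rw [e3] at F
  have H := ND.impI F wH
  have wI : W (c + 4) s (.all 1 (.imp (.succ 0 1) (.all 0 (.imp (.eq 0 1) (Rr Y i))))) := by
    rw [← Rr_succ]
    exact ⟨bR1, by omega⟩
  have I := H.allI (x := 1) (fun g hg h => by
    rcases List.mem_append.1 hg with hg | hg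
    · have := chain_free hg h; omega
    · rw [List.mem_singleton] at hg
      rw [hg] at h
      simp only [Fm.Free] at h
      omega) wI
  rw [← Rr_succ] at I
  -- J
  have w4 : ∀ g ∈ ([.eq 0 (dn j)] : List Fml), W (c + 4) s g := by
    intro g hg
    rw [List.mem_singleton] at hg
    rw [hg]; exact wE0
  have wJ : W (c + 4) s (imps (chain j ++ [.eq 0 (dn j)]) (Rr Y (i + 1))) :=
    ⟨BB.imps (bch w4) bR1, by
      simp only [sz_imps, cs_append, cs_cons, cs_nil, sz_eq]; omega⟩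
  have J := ND_impIs (Δ := []) (L := chain j ++ [.eq 0 (dn j)]) I wJ
  refine J.up ?_
  simp only [List.length_append, chain_len, List.length_cons, List.length_nil]
  omega

end Pool.Agent.J6H63.BC
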