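import Pool.Agent.J6H63.BC.InstD

/-!
# The finite consistency statements are true in the standard model
-/

set_option autoImplicit false

namespace Pool.Agent.J6H63.BC

open Pool.Agent.TH672 (Fm Str upd num digits upd_same upd_ne upd_upd upd_comm upd_self)
open Pool.Agent.TH636.BC (Fml Proves code inst robinson PrRel Numerates con conAt)
open Pool.Agent.TH838.J1549 (Q sat_cong sat_inst sat_inst3 free_inst)
open Pool.Agent.TH197.J1545 (code_inj sat_proves)
open Pool.Agent.J6H49.BC

variable (R : ℕ → ℕ → ℕ → ℕ → ℕ → Prop)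

/-- expansions of the standard model as structures of Robinson arithmetic with functions -/
def qR : Q (expansion R) where
  o := (0 : ℕ)
  s := fun x : ℕ => x + 1
  a := fun x y : ℕ => x + y
  m := fun x y : ℕ => x * y
  zero_iff := fun _ => Iff.rfl
  succ_iff := fun _ _ => Iff.rfl
  add_iff := fun _ _ _ => Iff.rfl
  mul_iff := fun _ _ _ => Iff.rfl
  s_ne := fun x => Nat.succ_ne_zero x
  s_inj := fun x y h => Nat.succ.inj h
  cases := fun x => by
    have h : ∀ x : ℕ, x = 0 ∨ ∃ y, x = y + 1 := fun x => by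
      cases x with
      | zero => exact .inl rfl
      | succ n => exact .inr ⟨n, rfl⟩
    exact h x
  a_o := fun x => Nat.add_zero x
  a_s := fun x y => (Nat.add_assoc x y 1).symm
  m_o := fun x => Nat.mul_zero x
  m_s := fun x y => Nat.mul_succ x y

theorem qR_nm (n : ℕ) : (qR R).nm n = n := by
  induction n with
  | zero => rfl
  | succ n ih =>
    change (qR R).nm n + 1 = n + 1
    rw [ih]

theorem robR : ∀ φ ∈ robinson, ∀ v : ℕ → ℕ, Fm.Sat (expansion R) φ v := by
  intro φ hφ v
  simp only [robinson, List.mem_cons, List.not_mem_nil, or_false] at hφ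
  rcases hφ with rfl | rfl | rfl | rfl | rfl | rfl | rfl | rfl | rfl | rfl | rfl | rfl | rfl | rfl | rfl
  · rw [Fm.sat_ex]
    exact ⟨0, rfl⟩
  · intro (a : ℕ) (b : ℕ) h1 h2
    exact (show a = 0 from h1).trans (show b = 0 from h2).symm
  · intro (a : ℕ)
    rw [Fm.sat_ex]
    exact ⟨a + 1, rfl⟩
  · intro (a : ℕ) (b : ℕ) (c : ℕ) h1 h2
    exact (show b = a + 1 from h1).trans (show c = a + 1 from h2).symm
  · intro (a : ℕ) (b : ℕ)
    rw [Fm.sat_ex]
    exact ⟨a + b, rfl⟩
  · intro (a : ℕ) (b : ℕ) (c : ℕ) (d : ℕ) h1 h2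
    exact (show c = a + b from h1).trans (show d = a + b from h2).symm
  · intro (a : ℕ) (b : ℕ)
    rw [Fm.sat_ex]
    exact ⟨a * b, rfl⟩
  · intro (a : ℕ) (b : ℕ) (c : ℕ) (d : ℕ) h1 h2
    exact (show c = a * b from h1).trans (show d = a * b from h2).symm
  · intro (a : ℕ) (b : ℕ) h1 h2
    exact absurd ((show b = a + 1 from h1).symm.trans (show b = 0 from h2)) (Nat.succ_ne_zero a)
  · intro (a : ℕ) (b : ℕ) (c : ℕ) h1 h2
    exact Nat.succ.inj ((show c = a + 1 from h1).symm.trans (show c = b + 1 from h2))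
  · intro (a : ℕ)
    rw [Fm.sat_or, Fm.sat_ex]
    have h : ∀ a : ℕ, a = 0 ∨ ∃ y, a = y + 1 := fun a => by
      cases a with
      | zero => exact .inl rfl
      | succ n => exact .inr ⟨n, rfl⟩
    exact h a
  · intro (a : ℕ) (b : ℕ) h1
    have h1' : b = 0 := h1
    change a = a + b
    omega
  · intro (a : ℕ) (b : ℕ) (c : ℕ) (d : ℕ) (e : ℕ) h1 h2 h3
    have h1' : c = b + 1 := h1
    have h2' : d = a + b := h2
    have h3' : e = d + 1 := h3
    change e = a + c
    omega
  · intro (a : ℕ) (b : ℕ) h1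
    have h1' : b = 0 := h1
    change b = a * b
    rw [h1', Nat.mul_zero]
  · intro (a : ℕ) (b : ℕ) (c : ℕ) (d : ℕ) (e : ℕ) h1 h2 h3
    have h1' : c = b + 1 := h1
    have h2' : d = a * b := h2
    have h3' : e = d + a := h3
    change e = a * c
    rw [h1', h3', h2']
    ring

variable {R}

theorem prRel_iff {Γ : List Fml} {n : ℕ} :
    PrRel (code Γ) n (code [Fm.bot]) ↔ Proves Γ n .bot := by
  constructor
  · rintro ⟨Γ', φ, e1, e2, h⟩
    have e1' := code_inj e1
    have e2' := code_inj e2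
    have e2'' : Fm.bot = φ := by simpa using e2'
    subst e1' e2''
    exact h
  · intro h
    exact ⟨Γ, .bot, rfl, rfl, h⟩

/-- the truth value of `P.neg` -/
theorem sat_Pneg {P : Fml} (hP : Numerates P) (Γ : List Fml) (n : ℕ) (v : ℕ → ℕ) :
    Fm.Sat (expansion R) P.neg (upd (upd (upd v 2 (code Γ)) 3 n) 4 (code [Fm.bot])) ↔
      ¬ Proves Γ n .bot := by
  have hf : ∀ x, (P.neg).Free x → x = 2 ∨ x = 3 ∨ x = 4 := fun x hx => by
    simp only [Fm.neg, Fm.Free, or_false] at hx
    exact hP.free x hx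
  constructor
  · intro h hpr
    obtain ⟨k, hk⟩ := hP.pos _ _ _ (prRel_iff.2 hpr)
    have hs := sat_proves (S := expansion R) (robR R) hk v
    rw [sat_inst3 (qR R) hP.free, qR_nm, qR_nm, qR_nm] at hs
    exact h hs
  · intro h
    obtain ⟨k, hk⟩ := hP.neg _ _ _ (fun h' => h (prRel_iff.1 h'))
    have hs := sat_proves (S := expansion R) (robR R) hk v
    rw [sat_inst3 (qR R) hf, qR_nm, qR_nm, qR_nm] at hs
    exact hs

theorem upd_perm (v : ℕ → ℕ) (a b c : ℕ) :
    upd (upd (upd v 3 a) 2 b) 4 c = upd (upd (upd v 2 b) 3 a) 4 c := by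
  rw [upd_comm v a b (by decide)]

/-- MODULE N2 -/
theorem trueCon : TrueConT := by
  intro P hP R Γ n v
  have hf : ∀ x, (P.neg).Free x → x = 2 ∨ x = 3 ∨ x = 4 := fun x hx => by
    simp only [Fm.neg, Fm.Free, or_false] at hx
    exact hP.free x hx
  have g0 : ¬ (P.neg).Free 0 := fun h => by have := hf 0 h; omega
  have g1 : ¬ (P.neg).Free 1 := fun h => by have := hf 1 h; omega
  have key := sat_Pneg (R := R) hP Γ n v
  constructor
  · unfold conAt con
    rw [sat_inst (qR R) (by omega) (fun h => g0 (free_inst (free_inst h).2.2).2.2)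
      (fun h => g1 (free_inst (free_inst h).2.2).2.2),
      sat_inst (qR R) (by omega) (fun h => g0 (free_inst h).2.2)
      (fun h => g1 (free_inst h).2.2), sat_inst (qR R) (by omega) g0 g1, qR_nm, qR_nm, qR_nm,
      upd_perm]
    exact key
  · unfold conAtD conD
    rw [sat_instD (qR R) (by omega) (fun h => g0 (free_instD (free_instD h).2).2)
      (fun h => g1 (free_instD (free_instD h).2).2),
      sat_instD (qR R) (by omega) (fun h => g0 (free_instD h).2)
      (fun h => g1 (free_instD h).2), sat_instD (qR R) (by omega) g0 g1, qR_nm, qR_nm, qR_nm,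
      upd_perm]
    exact key

end Pool.Agent.J6H63.BC
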