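import Pool.Agent.J6H49.BC.Stm2
import Pool.Agent.J6H92.BC.NDLib
import Pool.Agent.J6H77.BC.D3b3

/-!
# The context `chain n`
-/

set_option autoImplicit false

namespace Pool.Agent.J6H63.BC

open Pool.Agent.TH672 (Fm LogK ReplK Sw)
open Pool.Agent.TH636.BC (Fml blk inst lt col)
open Pool.Agent.J6H49.BC
open Pool.Agent.J6H92.BC

theorem chain_mem {j : ℕ} {g : Fml} (h : g ∈ chain j) :
    g = Fm.zero (dn 0) ∨ ∃ i < j, g = Fm.succ (dn i) (dn (i + 1)) := by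
  unfold chain at h
  rcases List.mem_cons.1 h with rfl | h
  · exact .inl rfl
  · obtain ⟨i, hi, rfl⟩ := List.mem_map.1 h
    exact .inr ⟨i, List.mem_range.1 hi, rfl⟩

theorem chain_len (j : ℕ) : (chain j).length = j + 1 := by
  simp [chain]

theorem chain_bb {c j : ℕ} {g : Fml} (h : g ∈ chain j) : BB c g := by
  rcases chain_mem h with rfl | ⟨i, _, rfl⟩
  · exact bb_zero _ _
  · exact bb_succ _ _ _

theorem chain_sz {j : ℕ} {g : Fml} (h : g ∈ chain j) : sz g ≤ 96 + 12 * j := by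
  rcases chain_mem h with rfl | ⟨i, hi, rfl⟩
  · rw [sz_zero]; unfold dn; omega
  · rw [sz_succ]; unfold dn; omega

theorem chain_free {j x : ℕ} {g : Fml} (h : g ∈ chain j) (hx : g.Free x) : 42 ≤ x := by
  rcases chain_mem h with rfl | ⟨i, _, rfl⟩
  · simp only [Fm.Free] at hx
    rw [hx]; unfold dn; omega
  · simp only [Fm.Free] at hx
    rcases hx with rfl | rfl <;> unfold dn <;> omega

theorem cs_chain_le (j : ℕ) : cs (chain j) ≤ 100 * (j + 1) ^ 2 := by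
  have h := cs_le (Δ := chain j) (s := 96 + 12 * j) fun g hg => chain_sz hg
  rw [chain_len] at h
  refine h.trans ?_
  nlinarith

/-- the main bound for the sizes -/
theorem size_bound {C a n j : ℕ} (hC : a + 400 ≤ C) (hj : j ≤ n) :
    cs (chain j) + a + 300 * (n + 1) ≤ C * (n + 1) ^ 3 := by
  have h1 := cs_chain_le j
  have h2 : (j + 1) ^ 2 ≤ (n + 1) ^ 2 := Nat.pow_le_pow_left (by omega) 2
  have h3 : (n + 1) ^ 2 ≤ (n + 1) ^ 3 := Nat.pow_le_pow_right (by omega) (by omega)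
  have h4 : n + 1 ≤ (n + 1) ^ 3 := by
    calc n + 1 = (n + 1) ^ 1 := (pow_one _).symm
      _ ≤ (n + 1) ^ 3 := Nat.pow_le_pow_right (by omega) (by omega)
  have h5 : 1 ≤ (n + 1) ^ 3 := Nat.one_le_pow _ _ (by omega)
  have h6 : a ≤ a * (n + 1) ^ 3 := Nat.le_mul_of_pos_right _ h5
  have h7 : (a + 400) * (n + 1) ^ 3 ≤ C * (n + 1) ^ 3 := Nat.mul_le_mul_right _ hC
  refine le_trans ?_ h7
  rw [Nat.add_mul]
  obtain ⟨T, hT⟩ : ∃ T, (n + 1) ^ 3 = T := ⟨_, rfl⟩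
  obtain ⟨T2, hT2⟩ : ∃ T, (n + 1) ^ 2 = T := ⟨_, rfl⟩
  obtain ⟨T3, hT3⟩ : ∃ T, (j + 1) ^ 2 = T := ⟨_, rfl⟩
  rw [hT] at h3 h4 h5 h6 ⊢
  rw [hT2] at h2 h3
  rw [hT3] at h1 h2
  linarith

end Pool.Agent.J6H63.BC
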