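import Pool.Agent.J6H49.BC.Stm4
import Pool.Agent.TH197.J1545b
import Pool.Agent.TH838.J1549

/-!
# Satisfaction of formulas with dyadic numerals
-/

set_option autoImplicit false

namespace Pool.Agent.J6H63.BC

open Pool.Agent.TH672 (Fm Str upd num digits upd_same upd_ne upd_upd upd_comm upd_self)
open Pool.Agent.TH636.BC (Fml)
open Pool.Agent.TH838.J1549 (Q sat_cong)
open Pool.Agent.TH197.J1545 (num_snoc num_app digits_zero digits_pos)
open Pool.Agent.J6H49.BC

theorem num_digits (n : ℕ) : num (digits n) = n := by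
  induction n using Nat.strong_induction_on with
  | _ n ih =>
    by_cases h : n = 0
    · rw [h, digits_zero]; rfl
    · rw [digits_pos h, num_snoc, ih _ (by omega)]
      by_cases h2 : n % 2 = 0
      · simp only [h2, decide_true, if_true]; omega
      · simp only [h2, decide_false, Bool.false_eq_true, if_false]; omega

theorem num_one (b : Bool) : num [b] = if b then 2 else 1 := by
  cases b <;> rfl

theorem num_cons (b : Bool) (w : List Bool) :
    num (b :: w) = 2 ^ w.length * (if b then 2 else 1) + num w := by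
  have := num_app [b] w
  rw [num_one] at this
  exact this

/-! ### free variables -/

theorem free_digitD {x y : ℕ} {b : Bool} {φ : Fml} (h : (digitD x b φ).Free y) :
    y ≠ 0 ∧ (y = x ∨ φ.Free y) := by
  cases b
  · simp only [digitD, Bool.false_eq_true, if_false, Fm.Free] at h
    tauto
  · simp only [digitD, if_true, Fm.Free] at h
    tauto

theorem free_foldr {x y : ℕ} {φ : Fml} : ∀ {w : List Bool},
    (w.foldr (digitD x) φ).Free y → y = x ∨ φ.Free y
  | [], h => .inr h
  | _ :: _, h => by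
    rcases (free_digitD h).2 with h | h
    · exact .inl h
    · exact free_foldr h

theorem not_free_foldr {x y : ℕ} {φ : Fml} (hx : y ≠ x) (h : ¬ φ.Free y) (w : List Bool) :
    ¬ (w.foldr (digitD x) φ).Free y := fun h' => by
  rcases free_foldr h' with h' | h'
  · exact hx h'
  · exact h h'

theorem free_instD {x n y : ℕ} {φ : Fml} (h : (instD x n φ).Free y) : y ≠ x ∧ φ.Free y := by
  simp only [instD, Fm.Free] at h
  obtain ⟨h1, h2 | h2⟩ := h
  · exact absurd h2 h1
  · rcases free_foldr h2 with h2 | h2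
    · exact absurd h2 h1
    · exact ⟨h1, h2⟩

/-! ### satisfaction -/

variable {S : Str ℕ}

theorem sat_digitD (q : Q S) {φ : Fml} {x : ℕ} (hx : 2 ≤ x) (h0 : ¬ φ.Free 0) (h1 : ¬ φ.Free 1)
    (b : Bool) (v : ℕ → S.M) (y : ℕ) (hv : v x = q.nm y) :
    Fm.Sat S (digitD x b φ) v ↔ Fm.Sat S φ (upd v x (q.nm (2 * y + if b then 2 else 1))) := by
  have hx0 : x ≠ 0 := by omega
  have hx1 : x ≠ 1 := by omega
  cases b
  · simp only [digitD, Bool.false_eq_true, if_false, Fm.sat_all, Fm.sat_imp, Fm.sat_add,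
      Fm.sat_succ, q.add_iff, q.succ_iff, upd_same, upd_ne _ _ hx0, upd_ne _ _ hx0.symm, hv,
      forall_eq, q.nm_add]
    have e : q.s (q.nm (y + y)) = q.nm (2 * y + 1) := by
      rw [two_mul]; rfl
    rw [e]
    refine sat_cong fun z hz => ?_
    have hz0 : z ≠ 0 := fun e => h0 (e ▸ hz)
    by_cases hzx : z = x
    · rw [hzx, upd_same, upd_same]
    · rw [upd_ne _ _ hzx, upd_ne _ _ hzx, upd_ne _ _ hz0]
  · simp only [digitD, if_true, Fm.sat_all, Fm.sat_imp, Fm.sat_add,
      Fm.sat_succ, q.add_iff, q.succ_iff, upd_same, upd_ne _ _ hx0,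
      upd_ne _ _ hx1.symm, upd_ne _ _ (show (0 : ℕ) ≠ 1 by decide), hv,
      forall_eq, q.nm_add]
    have e : q.s (q.s (q.nm (y + y))) = q.nm (2 * y + 2) := by
      rw [two_mul]; rfl
    rw [e]
    refine sat_cong fun z hz => ?_
    have hz0 : z ≠ 0 := fun e => h0 (e ▸ hz)
    have hz1 : z ≠ 1 := fun e => h1 (e ▸ hz)
    by_cases hzx : z = x
    · rw [hzx, upd_same, upd_same]
    · rw [upd_ne _ _ hzx, upd_ne _ _ hzx, upd_ne _ _ hz1, upd_ne _ _ hz0]

theorem sat_foldr (q : Q S) {φ : Fml} {x : ℕ} (hx : 2 ≤ x) (h0 : ¬ φ.Free 0) (h1 : ¬ φ.Free 1) :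
    ∀ (w : List Bool) (v : ℕ → S.M) (y : ℕ), v x = q.nm y →
      (Fm.Sat S (w.foldr (digitD x) φ) v ↔
        Fm.Sat S φ (upd v x (q.nm (2 ^ w.length * y + num w))))
  | [], v, y, hv => by
    have e : 2 ^ ([] : List Bool).length * y + num [] = y := by simp [num]
    rw [e, ← hv, upd_self]
    rfl
  | b :: w, v, y, hv => by
    rw [List.foldr_cons, sat_digitD q hx (not_free_foldr (by omega) h0 w)
      (not_free_foldr (by omega) h1 w) b v y hv,
      sat_foldr q hx h0 h1 w _ _ (upd_same _ _ _), upd_upd, num_cons, List.length_cons]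
    have e : 2 ^ w.length * (2 * y + if b then 2 else 1) + num w =
        2 ^ (w.length + 1) * y + (2 ^ w.length * (if b then 2 else 1) + num w) := by ring
    rw [e]

theorem sat_instD (q : Q S) {φ : Fml} {x : ℕ} (hx : 2 ≤ x) (h0 : ¬ φ.Free 0) (h1 : ¬ φ.Free 1)
    (n : ℕ) (v : ℕ → S.M) : Fm.Sat S (instD x n φ) v ↔ Fm.Sat S φ (upd v x (q.nm n)) := by
  simp only [instD, Fm.sat_all, Fm.sat_imp, Fm.sat_zero, q.zero_iff, upd_same, forall_eq]
  rw [sat_foldr q hx h0 h1 (digits n) (upd v x q.o) 0 (upd_same _ _ _), upd_upd, num_digits,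
    Nat.mul_zero, Nat.zero_add]

end Pool.Agent.J6H63.BC
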